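import Mathlib
import Pool.Agent.Results.MP_540c93_co.NoFinite

namespace Pool.Agent.Results.MP_88e7bb_co.Cube

open Pool.Agent.Results.MP_540c93_co.NoFinite

/-- all maximal independent sets have the same size -/
def WellCovered {V : Type} (G : SimpleGraph V) : Prop :=
  ∀ S T, IndDom G S → IndDom G T → S.ncard = T.ncard

lemma sq {V : Type} (G : SimpleGraph V) (X Y Z W : {S : Set V // ISet G S})
    (h1 : (iGraph G).Adj X Y) (h2 : (iGraph G).Adj Y Z) (h3 : (iGraph G).Adj X W)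
    (h4 : (iGraph G).Adj W Z)
    (hXZ : X ≠ Z) (hYW : Y ≠ W) (hn : ¬ (iGraph G).Adj Y W) (hn' : ¬ (iGraph G).Adj X Z)
    (u v : V) (hu : u ∈ X.1) (hv : v ∉ X.1) (huv : G.Adj u v) (e : W.1 = insert v (X.1 \ {u})) :
    u ∈ Y.1 ∧ v ∉ Y.1 ∧ Z.1 = insert v (Y.1 \ {u}) := by
  have a := square G X W Z Y u h3 h4 h1 hXZ hYW.symm (fun h => hn h.symm) hu
    (by simp [e, huv.ne])
  have b := square G W X Y Z v h3.symm h1 h4 hYW.symm hXZ hn' (by simp [e]) hv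
  obtain ⟨p, hp, q, hq, -, f⟩ := (adj_iff G Y Z).1 h2
  have : v = q := by
    have := b.1; rw [f] at this
    exact this.resolve_right fun h => b.2 h.1
  subst this
  have : u = p := by
    by_contra h
    exact a.2 (by rw [f]; exact Or.inr ⟨a.1, h⟩)
  subst this
  exact ⟨a.1, b.2, f⟩

lemma ext {V : Type} [Finite V] (G : SimpleGraph V) (D : Set V) (hD : G.IsIndepSet D) :
    ∃ M, D ⊆ M ∧ IndDom G M := by
  obtain ⟨M, hM, hm⟩ := (Set.toFinite {M | G.IsIndepSet M}).exists_le_maximal hD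
  refine ⟨M, hM, hm.1, fun v hv => ?_⟩
  by_contra! h
  have : G.IsIndepSet (insert v M) := by
    refine Set.Pairwise.insert hm.1 fun b hb _ => ⟨fun q => h b hb q.symm, h b hb⟩
  exact hv (hm.2 this (Set.subset_insert _ _) (Set.mem_insert _ _))

lemma fill {V : Type} [Finite V] (G : SimpleGraph V) (hG : WellCovered G)
    (A B1 B2 B3 C12 C13 C23 : {S : Set V // ISet G S})
    (a1 : (iGraph G).Adj A B1) (a2 : (iGraph G).Adj A B2) (a3 : (iGraph G).Adj A B3)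
    (b1 : (iGraph G).Adj B1 C12) (b2 : (iGraph G).Adj B2 C12) (b3 : (iGraph G).Adj B1 C13)
    (b4 : (iGraph G).Adj B3 C13) (b5 : (iGraph G).Adj B2 C23) (b6 : (iGraph G).Adj B3 C23)
    (n1 : A ≠ C12) (n2 : A ≠ C13) (n3 : A ≠ C23) (n4 : B1 ≠ B2) (n5 : B1 ≠ B3) (n6 : B2 ≠ B3)
    (m1 : ¬ (iGraph G).Adj A C12) (m2 : ¬ (iGraph G).Adj A C13) (m3 : ¬ (iGraph G).Adj A C23)
    (m4 : ¬ (iGraph G).Adj B1 B2) (m5 : ¬ (iGraph G).Adj B1 B3) (m6 : ¬ (iGraph G).Adj B2 B3) :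
    ∃ D, (iGraph G).Adj C12 D ∧ (iGraph G).Adj C13 D ∧ (iGraph G).Adj C23 D := by
  obtain ⟨u1, p1, v1, q1, r1, e1⟩ := (adj_iff G _ _).1 a1
  obtain ⟨u2, p2, v2, q2, r2, e2⟩ := (adj_iff G _ _).1 a2
  obtain ⟨u3, p3, v3, q3, r3, e3⟩ := (adj_iff G _ _).1 a3
  obtain ⟨s1, t1, f1⟩ := sq G A B1 C12 B2 a1 b1 a2 b2 n1 n4 m4 m1 u2 v2 p2 q2 r2 e2
  obtain ⟨s2, t2, f2⟩ := sq G A B1 C13 B3 a1 b3 a3 b4 n2 n5 m5 m2 u3 v3 p3 q3 r3 e3
  obtain ⟨s3, t3, f3⟩ := sq G A B2 C23 B3 a2 b5 a3 b6 n3 n6 m6 m3 u3 v3 p3 q3 r3 e3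
  have i2 := C13.2.1.1
  have i3 := C23.2.1.1
  have i1 := C12.2.1.1
  have w1 : u1 ≠ v1 := r1.ne
  have w2 : u2 ≠ v2 := r2.ne
  have w3 : u3 ≠ v3 := r3.ne
  have hu : u3 ∈ C12.1 := by rw [f1]; rw [e2] at s3; grind
  have hv : v3 ∉ C12.1 := by rw [f1]; rw [e2] at t3; grind
  have hD : G.IsIndepSet (insert v3 (C12.1 \ {u3})) := by
    refine Set.Pairwise.insert (i1.mono Set.diff_subset) fun b hb hn => ?_
    have : ¬ G.Adj v3 b := by
      rw [f1] at hb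
      rcases hb.1 with h | h
      · exact i3 (by simp [f3]) (by rw [f3, e2, h]; grind) hn
      · exact i2 (by simp [f2]) (by rw [f2]; exact Or.inr ⟨h.1, hb.2⟩) hn
    exact ⟨this, fun q => this q.symm⟩
  have hc : (insert v3 (C12.1 \ {u3})).ncard = C12.1.ncard := Set.ncard_exchange hv hu
  obtain ⟨M, hM, hm⟩ := ext G _ hD
  have : insert v3 (C12.1 \ {u3}) = M :=
    Set.eq_of_subset_of_ncard_le hM (by rw [hc, hG _ _ hm C12.2.1])
  refine ⟨⟨insert v3 (C12.1 \ {u3}), this ▸ hm, fun T hT => hc ▸ C12.2.2 T hT⟩, ?_, ?_, ?_⟩ <;>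
    rw [adj_iff]
  · exact ⟨u3, hu, v3, hv, r3, rfl⟩
  · refine ⟨u2, ?_, v2, ?_, r2, ?_⟩
    · rw [f2]; rw [e2] at s3; grind
    · rw [f2]; rw [e2] at t3; grind
    · simp only [f1, f2]; rw [e2] at s3 t3; ext; grind
  · refine ⟨u1, ?_, v1, ?_, r1, ?_⟩
    · rw [f3, e2]; rw [e1] at s1 s2; grind
    · rw [f3, e2]; rw [e1] at t1 t2; grind
    · simp only [f1, f3, e1, e2]; rw [e1] at s1 s2 t1 t2; rw [e2] at s3 t3; ext; grind

def ad (a b : Fin 7) : Bool :=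
  (a, b) ∈ [((0 : Fin 7), (1 : Fin 7)), (1, 0), (2, 3), (3, 2), (4, 5), (5, 4), (6, 0), (0, 6),
    (6, 2), (2, 6), (6, 4), (4, 6)]

def G0 : SimpleGraph (Fin 7) := ⟨fun a b => ad a b, ⟨by decide⟩, ⟨by decide⟩⟩

def Q (T : Finset (Fin 7)) : Prop :=
  (∀ a ∈ T, ∀ b ∈ T, ad a b = false) ∧ ∀ v, v ∉ T → ∃ u ∈ T, ad u v

instance (T) : Decidable (Q T) := by unfold Q; infer_instance

lemma hQ (T : Finset (Fin 7)) : IndDom G0 T ↔ Q T := by
  have : ∀ a, ad a a = false := by decide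
  refine and_congr ⟨fun h a ha b hb => ?_, fun h a ha b hb _ => by simp [G0, h a ha b hb]⟩
    (by simp [G0])
  by_cases e : a = b
  · rw [e, this]
  · simpa [G0] using h ha hb e

def mk (T : Finset (Fin 7)) (h : Q T ∧ T.card = 3) : {S : Set (Fin 7) // ISet G0 S} :=
  ⟨T, (hQ T).2 h.1, fun S hS => by
    lift S to Finset (Fin 7) using S.toFinite
    have : ∀ S, Q S → 3 ≤ S.card := by decide +kernel
    simpa [h.2] using this S ((hQ S).1 hS)⟩

lemma am (S T h k) : (iGraph G0).Adj (mk S h) (mk T k) ↔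
    ∃ u ∈ S, ∃ v, v ∉ S ∧ ad u v ∧ T = insert v (S \ {u}) := by
  simp only [adj_iff, mk, G0, ← Finset.coe_inj]
  simp

lemma em (S T h k) : mk S h = mk T k ↔ S = T := by simp [mk]

theorem result : ∃ (W : Type) (_ : Finite W) (H : SimpleGraph W), IsIGraph H ∧
    ¬ ∃ (V : Type) (_ : Finite V) (G : SimpleGraph V), WellCovered G ∧ Nonempty (H ≃g iGraph G) := by
  refine ⟨_, inferInstance, iGraph G0, ⟨_, inferInstance, G0, ⟨.refl⟩⟩, ?_⟩
  rintro ⟨V, _, G, hG, ⟨φ⟩⟩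
  obtain ⟨D, d1, d2, d3⟩ := fill G hG (φ (mk {0, 2, 4} (by decide))) (φ (mk {1, 2, 4} (by decide)))
    (φ (mk {0, 3, 4} (by decide))) (φ (mk {0, 2, 5} (by decide))) (φ (mk {1, 3, 4} (by decide)))
    (φ (mk {1, 2, 5} (by decide))) (φ (mk {0, 3, 5} (by decide)))
    (by rw [φ.map_adj_iff, am]; decide) (by rw [φ.map_adj_iff, am]; decide)
    (by rw [φ.map_adj_iff, am]; decide) (by rw [φ.map_adj_iff, am]; decide)
    (by rw [φ.map_adj_iff, am]; decide) (by rw [φ.map_adj_iff, am]; decide)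
    (by rw [φ.map_adj_iff, am]; decide) (by rw [φ.map_adj_iff, am]; decide)
    (by rw [φ.map_adj_iff, am]; decide)
    (by rw [φ.injective.ne_iff, Ne, em]; decide) (by rw [φ.injective.ne_iff, Ne, em]; decide)
    (by rw [φ.injective.ne_iff, Ne, em]; decide) (by rw [φ.injective.ne_iff, Ne, em]; decide)
    (by rw [φ.injective.ne_iff, Ne, em]; decide) (by rw [φ.injective.ne_iff, Ne, em]; decide)
    (by rw [φ.map_adj_iff, am]; decide) (by rw [φ.map_adj_iff, am]; decide)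
    (by rw [φ.map_adj_iff, am]; decide) (by rw [φ.map_adj_iff, am]; decide)
    (by rw [φ.map_adj_iff, am]; decide) (by rw [φ.map_adj_iff, am]; decide)
  obtain ⟨⟨S, hS⟩, rfl⟩ := φ.surjective D
  lift S to Finset (Fin 7) using S.toFinite
  have c : S.card = 3 := by
    have a := hS.2 _ (mk {0, 2, 4} (by decide)).2.1
    have b := (mk {0, 2, 4} (by decide)).2.2 _ hS.1
    simp only [mk, Set.ncard_coe_finset] at a b
    exact le_antisymm a b
  have e : (⟨S, hS⟩ : {S : Set (Fin 7) // ISet G0 S}) = mk S ⟨(hQ S).1 hS.1, c⟩ := rfl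
  rw [e, φ.map_adj_iff, am] at d1 d2 d3
  have q := (hQ S).1 hS.1
  clear e c hS
  revert S
  decide +kernel

end Pool.Agent.Results.MP_88e7bb_co.Cube
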